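import Mathlib
import Pool.Agent.H476R2.Pal.SDefs
import Pool.Agent.H605R2.PalS1
import Pool.Agent.H187R2.PalS2
import Pool.Agent.Helper923.HMertens

set_option autoImplicit false

/-!
Task S5 of the palindrome project (helper476), by helper483: lower bound sieve.
-/

namespace Pool.Agent.H483R2.PalS5

open Finset Filter Topology Pool.Agent.H476R2.Pal

/-- the set of sifting primes below `z` -/
def PP (z : ℕ) : Finset ℕ := (range z).filter (fun p => p.Prime ∧ ¬ p ∣ 10)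

lemma mem_PP {z p : ℕ} : p ∈ PP z ↔ p < z ∧ p.Prime ∧ ¬ p ∣ 10 := by
  unfold PP
  rw [mem_filter, mem_range]

lemma PP_succ (z : ℕ) : PP (z + 1) = if z.Prime ∧ ¬ z ∣ 10 then insert z (PP z) else PP z := by
  ext p
  split_ifs with h
  · rw [mem_insert, mem_PP, mem_PP]
    constructor
    · rintro ⟨h1, h2⟩
      rcases Nat.lt_succ_iff_lt_or_eq.1 h1 with h3 | h3
      · exact Or.inr ⟨h3, h2⟩
      · exact Or.inl h3
    · rintro (h1 | h1)
      · subst h1
        exact ⟨Nat.lt_succ_self _, h⟩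
      · exact ⟨by omega, h1.2⟩
  · rw [mem_PP, mem_PP]
    constructor
    · rintro ⟨h1, h2⟩
      refine ⟨?_, h2⟩
      rcases Nat.lt_succ_iff_lt_or_eq.1 h1 with h3 | h3
      · exact h3
      · subst h3
        exact absurd h2 h
    · rintro ⟨h1, h2⟩
      exact ⟨by omega, h2⟩

lemma not_mem_PP (z : ℕ) : z ∉ PP z := by
  rw [mem_PP]
  intro h
  omega

lemma PZ_eq (z : ℕ) : PZ z = ∏ p ∈ PP z, p := rfl

lemma PZ_succ_of {z : ℕ} (h : z.Prime ∧ ¬ z ∣ 10) : PZ (z + 1) = z * PZ z := by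
  rw [PZ_eq, PP_succ, if_pos h, prod_insert (not_mem_PP z), PZ_eq]

lemma PZ_succ_of_not {z : ℕ} (h : ¬ (z.Prime ∧ ¬ z ∣ 10)) : PZ (z + 1) = PZ z := by
  rw [PZ_eq, PP_succ, if_neg h, PZ_eq]

lemma prime_dvd_PZ {z q : ℕ} (hq : q.Prime) (h : q ∣ PZ z) : q < z := by
  rw [PZ_eq] at h
  obtain ⟨p, hp, hqp⟩ := (hq.prime.dvd_finsetProd_iff _).1 h
  rw [mem_PP] at hp
  rw [(Nat.prime_dvd_prime_iff_eq hq hp.2.1).1 hqp]
  exact hp.1

lemma coprime_PZ {p : ℕ} (hp : p.Prime) : p.Coprime (PZ p) := by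
  rw [hp.coprime_iff_not_dvd]
  intro h
  exact absurd (prime_dvd_PZ hp h) (lt_irrefl _)

lemma prime_coprime_ten {p : ℕ} (hp : p.Prime) (h : ¬ p ∣ 10) : p.Coprime 10 :=
  (hp.coprime_iff_not_dvd).2 h

lemma PZ_coprime_ten (z : ℕ) : (PZ z).Coprime 10 := by
  rw [PZ_eq]
  apply Nat.Coprime.prod_left
  intro p hp
  rw [mem_PP] at hp
  exact prime_coprime_ten hp.2.1 hp.2.2

lemma sift_step {ι : Type} (S : Finset ι) (v : ι → ℕ) (z : ℕ) :
    sift S v 1 z = sift S v 1 (z + 1) + if z.Prime ∧ ¬ z ∣ 10 then sift S v z z else 0 := by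
  classical
  split_ifs with h
  · unfold sift
    rw [PZ_succ_of h, ← Nat.cast_add]
    congr 1
    have h1 : (S.filter (fun i => 1 ∣ v i ∧ (v i).Coprime (PZ z))) =
        (S.filter (fun i => 1 ∣ v i ∧ (v i).Coprime (z * PZ z))) ∪
        (S.filter (fun i => z ∣ v i ∧ (v i).Coprime (PZ z))) := by
      ext i
      simp only [mem_filter, mem_union, one_dvd, true_and]
      rw [Nat.coprime_mul_iff_right]
      constructor
      · rintro ⟨h2, h3⟩
        by_cases h4 : z ∣ v i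
        · exact Or.inr ⟨h2, h4, h3⟩
        · exact Or.inl ⟨h2, ((h.1.coprime_iff_not_dvd).2 h4).symm, h3⟩
      · rintro (⟨h2, h3, h4⟩ | ⟨h2, h3, h4⟩)
        · exact ⟨h2, h4⟩
        · exact ⟨h2, h4⟩
    rw [h1, card_union_of_disjoint]
    rw [disjoint_left]
    intro i hi hi'
    simp only [mem_filter, one_dvd, true_and] at hi hi'
    rw [Nat.coprime_mul_iff_right] at hi
    exact (h.1.coprime_iff_not_dvd).1 hi.2.1.symm hi'.2.1
  · unfold sift
    rw [PZ_succ_of_not h, add_zero]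

lemma buchstab {ι : Type} (S : Finset ι) (v : ι → ℕ) (z : ℕ) :
    sift S v 1 z = (S.card : ℝ) - ∑ p ∈ PP z, sift S v p p := by
  induction z with
  | zero =>
    have h1 : PP 0 = ∅ := by
      unfold PP
      simp
    rw [h1, sum_empty, sub_zero]
    unfold sift
    have h2 : PZ 0 = 1 := by
      rw [PZ_eq, h1, prod_empty]
    rw [h2]
    simp
  | succ z ih =>
    have h1 := sift_step S v z
    rw [PP_succ]
    split_ifs at h1 ⊢ with h
    · rw [sum_insert (not_mem_PP z)]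
      linarith
    · linarith

lemma rem_one {ι : Type} (S : Finset ι) (v : ι → ℕ) (X : ℝ) : (S.card : ℝ) = X + rem S v X 1 := by
  unfold rem
  simp

/-- the remainders of all the upper bound sieves together -/
lemma rem_total {ι : Type} (S : Finset ι) (v : ι → ℕ) (X D : ℝ) (hD : 1 ≤ D) (z : ℕ) :
    |rem S v X 1| + ∑ p ∈ PP z, ∑ l ∈ (PZ p).divisors.filter (fun l : ℕ => (l : ℝ) ≤ D / p),
      (l.divisors.card : ℝ) ^ 2 * |rem S v X (p * l)| ≤ Rem S v X D := by
  set F : ℕ → ℝ := fun q => (q.divisors.card : ℝ) ^ 2 * |rem S v X q| with hF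
  have hF0 : ∀ q, 0 ≤ F q := fun q => by
    rw [hF]
    positivity
  set T : Finset (Σ _ : ℕ, ℕ) := (PP z).sigma
    (fun p => (PZ p).divisors.filter (fun l : ℕ => (l : ℝ) ≤ D / p)) with hT
  have hmem : ∀ x ∈ T, (x.1 < z ∧ x.1.Prime ∧ ¬ x.1 ∣ 10) ∧ x.2 ∣ PZ x.1 ∧ PZ x.1 ≠ 0 ∧
      (x.2 : ℝ) ≤ D / x.1 := by
    intro x hx
    rw [hT, mem_sigma, mem_filter, Nat.mem_divisors, mem_PP] at hx
    exact ⟨hx.1, hx.2.1.1, hx.2.1.2, hx.2.2⟩
  have hinj : Set.InjOn (fun x : Σ _ : ℕ, ℕ => x.1 * x.2) (T : Set (Σ _ : ℕ, ℕ)) := by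
    rintro ⟨p, l⟩ hx ⟨p', l'⟩ hx' heq
    have h1 := hmem _ hx
    have h2 := hmem _ hx'
    simp only at h1 h2 heq
    have key : ∀ p l p' l' : ℕ, p.Prime → p'.Prime → l ∣ PZ p → p * l = p' * l' → p' ≤ p := by
      intro p l p' l' hp hp' hl h
      have h3 : p' ∣ p * l := h ▸ dvd_mul_right _ _
      rcases (hp'.dvd_mul).1 h3 with h4 | h4
      · rw [(Nat.prime_dvd_prime_iff_eq hp' hp).1 h4]
      · exact (prime_dvd_PZ hp' (h4.trans hl)).le
    have h3 : p' ≤ p := key p l p' l' h1.1.2.1 h2.1.2.1 h1.2.1 heq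
    have h4 : p ≤ p' := key p' l' p l h2.1.2.1 h1.1.2.1 h2.2.1 heq.symm
    have h5 : p = p' := le_antisymm h4 h3
    subst h5
    have h6 : l = l' := Nat.eq_of_mul_eq_mul_left h1.1.2.1.pos heq
    subst h6
    rfl
  have h1 : ∑ p ∈ PP z, ∑ l ∈ (PZ p).divisors.filter (fun l : ℕ => (l : ℝ) ≤ D / p),
      (l.divisors.card : ℝ) ^ 2 * |rem S v X (p * l)| ≤ ∑ x ∈ T, F (x.1 * x.2) := by
    rw [hT, sum_sigma]
    apply sum_le_sum
    intro p hp
    apply sum_le_sum
    intro l hl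
    rw [mem_filter, Nat.mem_divisors] at hl
    rw [mem_PP] at hp
    simp only [hF]
    apply mul_le_mul_of_nonneg_right _ (abs_nonneg _)
    have hl0 : l ≠ 0 := by
      rintro rfl
      exact hl.1.2 (Nat.eq_zero_of_zero_dvd hl.1.1)
    have h2 : l.divisors ⊆ (p * l).divisors :=
      Nat.divisors_subset_of_dvd (mul_ne_zero hp.2.1.ne_zero hl0) (dvd_mul_left _ _)
    have h3 : (l.divisors.card : ℝ) ≤ ((p * l).divisors.card : ℝ) := by
      exact_mod_cast card_le_card h2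
    gcongr
  have h2 : ∑ x ∈ T, F (x.1 * x.2) = ∑ q ∈ T.image (fun x : Σ _ : ℕ, ℕ => x.1 * x.2), F q := by
    rw [sum_image]
    exact hinj
  have h3 : (1 : ℕ) ∉ T.image (fun x : Σ _ : ℕ, ℕ => x.1 * x.2) := by
    rw [mem_image]
    rintro ⟨x, hx, h4⟩
    have h5 := hmem x hx
    have h6 : x.1 ∣ 1 := ⟨x.2, h4.symm⟩
    exact h5.1.2.1.one_lt.ne' (Nat.dvd_one.1 h6)
  have h4 : |rem S v X 1| = F 1 := by
    simp [hF]
  have h5 : insert 1 (T.image (fun x : Σ _ : ℕ, ℕ => x.1 * x.2)) ⊆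
      (Icc 1 ⌊D⌋₊).filter (fun q => q.Coprime 10) := by
    intro q hq
    rw [mem_insert] at hq
    rw [mem_filter, mem_Icc]
    rcases hq with rfl | hq
    · refine ⟨⟨le_rfl, ?_⟩, by norm_num⟩
      exact Nat.le_floor (by exact_mod_cast hD)
    · rw [mem_image] at hq
      obtain ⟨x, hx, rfl⟩ := hq
      have h6 := hmem x hx
      have hx1 : 0 < x.1 := h6.1.2.1.pos
      have hx2 : 0 < x.2 := by
        rcases Nat.eq_zero_or_pos x.2 with h7 | h7
        · exfalso
          rw [h7] at h6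
          exact h6.2.2.1 (Nat.eq_zero_of_zero_dvd h6.2.1)
        · exact h7
      refine ⟨⟨Nat.mul_pos hx1 hx2, ?_⟩, ?_⟩
      · apply Nat.le_floor
        have h7 := h6.2.2.2
        rw [le_div_iff₀ (by exact_mod_cast hx1)] at h7
        push_cast
        linarith
      · exact Nat.Coprime.mul_left (prime_coprime_ten h6.1.2.1 h6.1.2.2)
          (Nat.Coprime.coprime_dvd_left h6.2.1 (PZ_coprime_ten _))
  calc |rem S v X 1| + ∑ p ∈ PP z, ∑ l ∈ (PZ p).divisors.filter (fun l : ℕ => (l : ℝ) ≤ D / p),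
      (l.divisors.card : ℝ) ^ 2 * |rem S v X (p * l)|
      ≤ F 1 + ∑ q ∈ T.image (fun x : Σ _ : ℕ, ℕ => x.1 * x.2), F q := by
        rw [h4]
        linarith
    _ = ∑ q ∈ insert 1 (T.image (fun x : Σ _ : ℕ, ℕ => x.1 * x.2)), F q := by
        rw [sum_insert h3]
    _ ≤ ∑ q ∈ (Icc 1 ⌊D⌋₊).filter (fun q => q.Coprime 10), F q :=
        sum_le_sum_of_subset_of_nonneg h5 (fun q _ _ => hF0 q)
    _ = Rem S v X D := rfl

/-! ### Numerics -/

lemma exp_17 : Real.exp (17 / 10) ≤ 5475 / 1000 := by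
  have h1 : Real.exp (17 / 10) ^ 10 = Real.exp 1 ^ 17 := by
    rw [← Real.exp_nat_mul, ← Real.exp_nat_mul]
    norm_num
  have h2 : Real.exp 1 ^ 17 ≤ (2.7182818286 : ℝ) ^ 17 :=
    pow_le_pow_left₀ (Real.exp_pos _).le Real.exp_one_lt_d9.le 17
  have h3 : (2.7182818286 : ℝ) ^ 17 ≤ (5475 / 1000 : ℝ) ^ 10 := by norm_num
  have h4 : Real.exp (17 / 10) ^ 10 ≤ (5475 / 1000 : ℝ) ^ 10 := by
    rw [h1]
    exact h2.trans h3
  exact (pow_le_pow_iff_left₀ (Real.exp_pos _).le (by norm_num) (by norm_num)).1 h4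

lemma exp_485 : Real.exp (-(485 / 100)) ≤ 81 / 10000 := by
  have h1 : Real.exp (485 / 100) ^ 20 = Real.exp 1 ^ 97 := by
    rw [← Real.exp_nat_mul, ← Real.exp_nat_mul]
    norm_num
  have h2 : (2.7182818283 : ℝ) ^ 97 ≤ Real.exp 1 ^ 97 :=
    pow_le_pow_left₀ (by norm_num) Real.exp_one_gt_d9.le 97
  have h3 : (10000 / 81 : ℝ) ^ 20 ≤ (2.7182818283 : ℝ) ^ 97 := by norm_num
  have h4 : (10000 / 81 : ℝ) ^ 20 ≤ Real.exp (485 / 100) ^ 20 := by
    rw [h1]
    exact h3.trans h2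
  have h5 : (10000 / 81 : ℝ) ≤ Real.exp (485 / 100) :=
    (pow_le_pow_iff_left₀ (by norm_num) (Real.exp_pos _).le (by norm_num)).1 h4
  rw [Real.exp_neg, inv_le_comm₀ (Real.exp_pos _) (by norm_num)]
  norm_num at h5 ⊢
  exact h5

/-- the exponential of the Rankin exponent -/
lemma exp_bound {s ex : ℝ} (hs : 1 ≤ s) (h : ex ≤ -(485 / 100) - 102 / 10 * (s - 1)) :
    Real.exp ex ≤ 81 / 10000 / s ^ 2 := by
  have hs0 : 0 < s := by linarith
  have h1 : s ≤ Real.exp (s - 1) := by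
    have := Real.add_one_le_exp (s - 1)
    linarith
  have h2 : s ^ 2 ≤ Real.exp (2 * (s - 1)) := by
    calc s ^ 2 ≤ Real.exp (s - 1) ^ 2 := pow_le_pow_left₀ hs0.le h1 2
      _ = Real.exp (2 * (s - 1)) := by
        rw [← Real.exp_nat_mul]
        norm_num
  have h3 : Real.exp (-(2 * (s - 1))) ≤ 1 / s ^ 2 := by
    rw [Real.exp_neg, ← one_div]
    exact one_div_le_one_div_of_le (by positivity) h2
  calc Real.exp ex ≤ Real.exp (-(485 / 100) + -(2 * (s - 1))) := by
        apply Real.exp_le_exp.2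
        linarith
    _ = Real.exp (-(485 / 100)) * Real.exp (-(2 * (s - 1))) := Real.exp_add _ _
    _ ≤ 81 / 10000 * (1 / s ^ 2) :=
        mul_le_mul exp_485 h3 (Real.exp_pos _).le (by norm_num)
    _ = 81 / 10000 / s ^ 2 := by ring

lemma VZ_pos (z : ℕ) : 0 < VZ z := by
  unfold VZ
  apply prod_pos
  intro p hp
  rw [mem_filter] at hp
  have h1 : (2 : ℝ) ≤ p := by exact_mod_cast hp.2.1.two_le
  have h2 : 1 / (p : ℝ) ≤ 1 / 2 := one_div_le_one_div_of_le (by norm_num) h1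
  linarith

/-- consequence of Rankin for the reciprocal of `GZ` -/
lemma inv_GZ {V G ρ : ℝ} (hV : 0 < V) (_hρ0 : 0 ≤ ρ) (hρ : ρ < 1) (h : V⁻¹ * (1 - ρ) ≤ G) :
    1 / G - V ≤ V * (ρ / (1 - ρ)) := by
  have h1 : 0 < 1 - ρ := by linarith
  have h2 : 0 < V⁻¹ * (1 - ρ) := by positivity
  have h3 : 1 / G ≤ 1 / (V⁻¹ * (1 - ρ)) := one_div_le_one_div_of_le h2 h
  have h4 : 1 / (V⁻¹ * (1 - ρ)) = V / (1 - ρ) := by
    field_simp
  have h5 : V / (1 - ρ) - V = V * (ρ / (1 - ρ)) := by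
    field_simp
    ring
  linarith

/-- Mertens for the sifting primes -/
lemma mertens_PP : ∃ C : ℝ, 0 ≤ C ∧ ∀ z : ℕ, 1 ≤ z →
    ∑ p ∈ PP z, Real.log p / p ≤ Real.log z + C := by
  obtain ⟨C, hC⟩ := Pool.Agent.Helper923.HMertens.mertens_log
  refine ⟨|C|, abs_nonneg _, fun z hz => ?_⟩
  have h1 := hC z hz
  have h2 : ∑ p ∈ PP z, Real.log p / p ≤ ∑ p ∈ (Finset.Icc 1 z).filter Nat.Prime, Real.log p / p := by
    apply sum_le_sum_of_subset_of_nonneg
    · intro p hp
      rw [mem_PP] at hp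
      rw [mem_filter, mem_Icc]
      exact ⟨⟨hp.2.1.one_lt.le, hp.1.le⟩, hp.2.1⟩
    · intro p _ _
      have : 0 ≤ Real.log p := Real.log_natCast_nonneg p
      positivity
  have h3 := (abs_le.1 h1).2
  have h4 := le_abs_self C
  linarith

/-- statement of Rankin's bound -/
def RankinStmt : Prop := ∃ C : ℝ, 0 ≤ C ∧ ∀ z : ℕ, 2 ≤ z → ∀ ξ v : ℝ, 1 ≤ ξ → 0 ≤ v →
    (VZ z)⁻¹ * (1 - Real.exp (-v * (Real.log ξ / Real.log z) +
      (Real.exp v - 1) * (1 + C / Real.log z))) ≤ GZ ξ z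

def VLimStmt : Prop := Tendsto (fun z : ℕ => VZ z * Real.log z) atTop
    (𝓝 (5 / 2 * Real.exp (-Real.eulerMascheroniConstant)))

/-- the main analytic estimate, in terms of `z` only -/
lemma analytic_z (hR : RankinStmt) (hVl : VLimStmt) : ∃ z0 : ℕ, ∀ z : ℕ, z0 ≤ z → ∀ lam : ℝ,
    12 * Real.log z - 12 / 1000 ≤ lam → ∀ ξ : ℕ → ℝ,
    (∀ p ∈ PP z, 1 ≤ ξ p ∧ Real.log (ξ p) = (lam - Real.log p) / 2) →
    ∑ p ∈ PP z, VZ p / p ≤ 1 →
    ∑ p ∈ PP z, 1 / (p : ℝ) * (1 / GZ (ξ p) p - VZ p) ≤ VZ z / 100 := by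
  obtain ⟨C, hC0, hC⟩ := hR
  obtain ⟨C', hC'0, hM⟩ := mertens_PP
  unfold VLimStmt at hVl
  set c : ℝ := 5 / 2 * Real.exp (-Real.eulerMascheroniConstant) with hc
  have hc0 : 0 < c := by positivity
  -- closeness to the limit
  have h1 : ∀ᶠ n : ℕ in atTop, |VZ n * Real.log n - c| ≤ 5 / 1000 * c := by
    have h2 := (Metric.tendsto_nhds.1 hVl) (5 / 1000 * c) (by positivity)
    filter_upwards [h2] with n hn
    rw [Real.dist_eq] at hn
    exact hn.le
  have h2 : ∀ᶠ n : ℕ in atTop, 475 / 100 * C ≤ 148 / 10000 * Real.log n :=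
    ((Real.tendsto_log_atTop.comp (tendsto_natCast_atTop_atTop (R := ℝ))).const_mul_atTop
      (by norm_num : (0 : ℝ) < 148 / 10000)).eventually_ge_atTop _
  obtain ⟨p1, hp1⟩ := eventually_atTop.1 (h1.and (h2.and (eventually_ge_atTop 3)))
  have hp13 : 3 ≤ p1 := (hp1 p1 le_rfl).2.2
  have hp1R : (3 : ℝ) ≤ p1 := by exact_mod_cast hp13
  have hlog3 : (1 : ℝ) ≤ Real.log 3 := by
    rw [Real.le_log_iff_exp_le (by norm_num)]
    have := Real.exp_one_lt_d9
    linarith
  have hlp1 : 1 ≤ Real.log p1 := hlog3.trans (Real.log_le_log (by norm_num) hp1R)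
  set κ : ℝ := 102 / 10 / Real.log p1 with hκ
  have hκ0 : 0 < κ := by positivity
  set K : ℝ := 53352 / 10000 + 4475 / 1000 * C with hK
  set η : ℝ := 4 / 10000 * c with hη
  have hη0 : 0 < η := by positivity
  obtain ⟨z1, hz1⟩ := eventually_atTop.1
    ((Real.tendsto_log_atTop.comp (tendsto_natCast_atTop_atTop (R := ℝ))).eventually_ge_atTop
      (1 + 2 * Real.exp K / (κ ^ 2 * η) + 20 * C' + 2 * η))
  refine ⟨max z1 p1, fun z hz lam hlam ξ hξ htele => ?_⟩
  have hzp1 : p1 ≤ z := (le_max_right _ _).trans hz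
  have hzR : (3 : ℝ) ≤ z := hp1R.trans (by exact_mod_cast hzp1)
  have hLz := hz1 z ((le_max_left _ _).trans hz)
  simp only [Function.comp] at hLz
  set Lz : ℝ := Real.log z with hLzd
  have hA0 : 0 ≤ 2 * Real.exp K / (κ ^ 2 * η) := by positivity
  have hLz1 : 1 ≤ Lz := by linarith
  have hLz0 : 0 < Lz := by linarith
  have hLzK : 2 * Real.exp K / (κ ^ 2 * η) ≤ Lz := by linarith
  have hLzC : 20 * C' ≤ Lz := by linarith
  have hLzη : 2 * η ≤ Lz := by linarith
  have hVz := VZ_pos z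
  have hVzc : 995 / 1000 * c ≤ VZ z * Lz := by
    have := (abs_le.1 (hp1 z hzp1).1).1
    linarith
  -- the bound for each prime
  have key : ∀ p ∈ PP z, 1 / (p : ℝ) * (1 / GZ (ξ p) p - VZ p) ≤
      825 / 100000 * VZ z / Lz * (Real.log p / p) + 2 * η / Lz * (VZ p / p) := by
    intro p hp
    obtain ⟨hξ1, hξ2⟩ := hξ p hp
    rw [mem_PP] at hp
    have hp2 : p ≠ 2 := by
      rintro rfl
      exact hp.2.2 (by norm_num)
    have hp3 : 3 ≤ p := by
      have := hp.2.1.two_le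
      omega
    have hpR : (3 : ℝ) ≤ p := by exact_mod_cast hp3
    have hp0 : (0 : ℝ) < p := by linarith
    set x : ℝ := Real.log p with hx
    have hx1 : 1 ≤ x := hlog3.trans (Real.log_le_log (by norm_num) hpR)
    have hx0 : 0 < x := by linarith
    have hxLz : x ≤ Lz := Real.log_le_log hp0 (by exact_mod_cast hp.1.le)
    have hVp := VZ_pos p
    have hrank := hC p (by omega) (ξ p) (17 / 10) hξ1 (by norm_num)
    rw [hξ2, ← hx] at hrank
    set ex : ℝ := -(17 / 10) * ((lam - x) / 2 / x) + (Real.exp (17 / 10) - 1) * (1 + C / x) with hex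
    set s : ℝ := Lz / x with hs
    have hs1 : 1 ≤ s := by
      rw [hs, le_div_iff₀ hx0]
      linarith
    have hw : 6 * s - 506 / 1000 ≤ (lam - x) / 2 / x := by
      rw [hs, le_div_iff₀ hx0]
      have h3 : (6 * (Lz / x) - 506 / 1000) * x = 6 * Lz - 506 / 1000 * x := by
        field_simp
      rw [h3]
      nlinarith
    have hCx : 0 ≤ C / x := by positivity
    have hex1 : ex ≤ -(102 / 10) * s + 8602 / 10000 + 4475 / 1000 * (1 + C / x) := by
      have h3 := exp_17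
      have h4 : (Real.exp (17 / 10) - 1) * (1 + C / x) ≤ 4475 / 1000 * (1 + C / x) := by
        apply mul_le_mul_of_nonneg_right _ (by linarith)
        linarith
      rw [hex]
      linarith
    rcases lt_or_ge p p1 with hlt | hge
    · -- small primes
      have hxp1 : x ≤ Real.log p1 := Real.log_le_log hp0 (by exact_mod_cast hlt.le)
      have h3 : κ * Lz ≤ 102 / 10 * s := by
        rw [hκ, hs, div_mul_eq_mul_div, mul_div_assoc]
        apply mul_le_mul_of_nonneg_left _ (by norm_num)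
        exact div_le_div_of_nonneg_left hLz0.le hx0 hxp1
      have h4 : C / x ≤ C := div_le_self hC0 hx1
      have h5 : ex ≤ K - κ * Lz := by
        rw [hK]
        linarith
      have h6 : Real.exp ex ≤ η / Lz := by
        have h7 : (κ * Lz) ^ 2 / 2 ≤ Real.exp (κ * Lz) := by
          have := Real.quadratic_le_exp_of_nonneg (x := κ * Lz) (by positivity)
          have h8 : 0 ≤ κ * Lz := by positivity
          linarith
        have h8 : Real.exp (-(κ * Lz)) ≤ 2 / (κ * Lz) ^ 2 := by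
          rw [Real.exp_neg, inv_le_comm₀ (Real.exp_pos _) (by positivity), inv_div]
          exact h7
        calc Real.exp ex ≤ Real.exp (K + -(κ * Lz)) := by
              apply Real.exp_le_exp.2
              linarith
          _ = Real.exp K * Real.exp (-(κ * Lz)) := Real.exp_add _ _
          _ ≤ Real.exp K * (2 / (κ * Lz) ^ 2) := by gcongr
          _ = (2 * Real.exp K / (κ ^ 2 * η)) * (η / Lz ^ 2) := by
              field_simp
          _ ≤ Lz * (η / Lz ^ 2) := by gcongr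
          _ = η / Lz := by
              field_simp
      have h7 : η / Lz ≤ 1 / 2 := by
        rw [div_le_iff₀ hLz0]
        linarith
      have h8 := inv_GZ hVp (Real.exp_pos ex).le (by linarith) hrank
      have h9 : Real.exp ex / (1 - Real.exp ex) ≤ 2 * η / Lz := by
        rw [div_le_iff₀ (by linarith)]
        have h10 : 2 * η / Lz = 2 * (η / Lz) := by ring
        rw [h10]
        nlinarith [Real.exp_pos ex]
      have h10 : 1 / GZ (ξ p) p - VZ p ≤ VZ p * (2 * η / Lz) :=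
        h8.trans (mul_le_mul_of_nonneg_left h9 hVp.le)
      calc 1 / (p : ℝ) * (1 / GZ (ξ p) p - VZ p) ≤ 1 / (p : ℝ) * (VZ p * (2 * η / Lz)) := by gcongr
        _ = 0 + 2 * η / Lz * (VZ p / p) := by ring
        _ ≤ 825 / 100000 * VZ z / Lz * (x / p) + 2 * η / Lz * (VZ p / p) := by
            gcongr
            positivity
    · -- large primes
      have h3 : 475 / 100 * C ≤ 148 / 10000 * x := (hp1 p hge).2.1
      have h4 : 4475 / 1000 * (C / x) ≤ 148 / 10000 := by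
        have h5 : 475 / 100 * (C / x) ≤ 148 / 10000 := by
          rw [← mul_div_assoc, div_le_iff₀ hx0]
          exact h3
        nlinarith
      have h5 : ex ≤ -(485 / 100) - 102 / 10 * (s - 1) := by linarith
      have h6 := exp_bound hs1 h5
      have hs0 : 0 < s := by linarith
      have hs2 : 1 ≤ s ^ 2 := one_le_pow₀ hs1
      have h7 : Real.exp ex ≤ 81 / 10000 := by
        refine h6.trans ?_
        exact div_le_self (by norm_num) hs2
      have h8 := inv_GZ hVp (Real.exp_pos ex).le (by linarith) hrank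
      have h9 : Real.exp ex / (1 - Real.exp ex) ≤ 81 / 9919 / s ^ 2 := by
        rw [div_le_div_iff₀ (by linarith) (by positivity)]
        rw [le_div_iff₀ (by positivity)] at h6
        have h10 : 0 ≤ Real.exp ex := (Real.exp_pos ex).le
        nlinarith
      have h10 : VZ p ≤ 1005 / 995 * VZ z * s := by
        have h11 := (abs_le.1 (hp1 p hge).1).2
        have h12 : VZ p * x ≤ 1005 / 1000 * c := by linarith
        have h13 : VZ p * x ≤ (1005 / 995 * VZ z * s) * x := by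
          have h14 : (1005 / 995 * VZ z * s) * x = 1005 / 995 * (VZ z * Lz) := by
            rw [hs]
            field_simp
          rw [h14]
          linarith
        exact le_of_mul_le_mul_right h13 hx0
      have h11 : 1 / GZ (ξ p) p - VZ p ≤ 825 / 100000 * VZ z / s := by
        calc 1 / GZ (ξ p) p - VZ p ≤ VZ p * (Real.exp ex / (1 - Real.exp ex)) := h8
          _ ≤ (1005 / 995 * VZ z * s) * (81 / 9919 / s ^ 2) := by
              apply mul_le_mul h10 h9 _ (by positivity)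
              apply div_nonneg (Real.exp_pos ex).le (by linarith)
          _ = (1005 / 995 * (81 / 9919)) * (VZ z / s) := by
              field_simp
          _ ≤ 825 / 100000 * (VZ z / s) := by
              gcongr
              norm_num
          _ = 825 / 100000 * VZ z / s := by ring
      calc 1 / (p : ℝ) * (1 / GZ (ξ p) p - VZ p) ≤ 1 / (p : ℝ) * (825 / 100000 * VZ z / s) := by
            gcongr
        _ = 825 / 100000 * VZ z / Lz * (x / p) + 0 := by
            rw [hs]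
            field_simp
            ring
        _ ≤ 825 / 100000 * VZ z / Lz * (x / p) + 2 * η / Lz * (VZ p / p) := by
            gcongr
            positivity
  calc ∑ p ∈ PP z, 1 / (p : ℝ) * (1 / GZ (ξ p) p - VZ p)
      ≤ ∑ p ∈ PP z, (825 / 100000 * VZ z / Lz * (Real.log p / p) + 2 * η / Lz * (VZ p / p)) :=
        sum_le_sum key
    _ = 825 / 100000 * VZ z / Lz * ∑ p ∈ PP z, Real.log p / p +
        2 * η / Lz * ∑ p ∈ PP z, VZ p / p := by
        rw [sum_add_distrib, ← mul_sum, ← mul_sum]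
    _ ≤ 825 / 100000 * VZ z / Lz * (105 / 100 * Lz) + 2 * η / Lz * 1 := by
        have h3 := hM z (by
          have : (1 : ℝ) ≤ z := by linarith
          exact_mod_cast this)
        gcongr
        linarith
    _ ≤ VZ z / 100 := by
        have h3 : 825 / 100000 * VZ z / Lz * (105 / 100 * Lz) = 866250 / 100000000 * VZ z := by
          field_simp
          ring
        have h4 : 2 * η / Lz * 1 ≤ 81 / 100000 * VZ z := by
          rw [mul_one, div_le_iff₀ hLz0, hη]
          nlinarith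
        rw [h3]
        linarith


/-- statement of Selberg's upper bound -/
def SelbergStmt : Prop := ∀ {ι : Type} (S : Finset ι) (v : ι → ℕ) (X : ℝ) (_hX : 0 ≤ X) (z d : ℕ)
    (_hd : d.Coprime (PZ z)) (_hd0 : 0 < d) (ξ : ℝ) (_hξ : 1 ≤ ξ),
    sift S v d z ≤ X / d / GZ ξ z +
      ∑ l ∈ (PZ z).divisors.filter (fun l : ℕ => (l : ℝ) ≤ ξ ^ 2),
        (l.divisors.card : ℝ) ^ 2 * |rem S v X (d * l)|

lemma VZ_tele (z : ℕ) : ∑ p ∈ PP z, VZ p / p = 1 - VZ z := by
  induction z with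
  | zero =>
    unfold PP VZ
    simp
  | succ z ih =>
    have h1 : VZ (z + 1) = if z.Prime ∧ ¬ z ∣ 10 then (1 - 1 / (z : ℝ)) * VZ z else VZ z := by
      have h2 : ∀ z, VZ z = ∏ p ∈ PP z, (1 - 1 / (p : ℝ)) := fun z => rfl
      rw [h2, PP_succ]
      split_ifs with h
      · rw [prod_insert (not_mem_PP z), ← h2]
      · rw [← h2]
    rw [PP_succ, h1]
    split_ifs with h
    · rw [sum_insert (not_mem_PP z), ih]
      ring
    · rw [ih]

/-- the lower bound sieve -/
theorem lower_of (hS : SelbergStmt) (hR : RankinStmt) (hVl : VLimStmt) :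
    ∃ D₀ : ℝ, ∀ D : ℝ, D₀ ≤ D → ∀ (ι : Type) (S : Finset ι) (v : ι → ℕ) (X : ℝ), 0 ≤ X →
    99 / 100 * X * VZ ⌈D ^ (1 / 12 : ℝ)⌉₊ - Rem S v X D ≤ sift S v 1 ⌈D ^ (1 / 12 : ℝ)⌉₊ := by
  obtain ⟨z0, hz0⟩ := analytic_z hR hVl
  refine ⟨max ((z0 : ℝ) ^ 12) (1000 ^ 12), fun D hD ι S v X hX => ?_⟩
  have hD1 : (z0 : ℝ) ^ 12 ≤ D := (le_max_left _ _).trans hD
  have hD2 : (1000 : ℝ) ^ 12 ≤ D := (le_max_right _ _).trans hD
  have hD3 : 1 ≤ D := le_trans (by norm_num) hD2
  have hD0 : 0 < D := by linarith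
  set u : ℝ := D ^ (1 / 12 : ℝ) with hu
  have hu12 : u ^ 12 = D := by
    rw [hu, ← Real.rpow_natCast, ← Real.rpow_mul hD0.le]
    norm_num
  have hu0 : 0 < u := Real.rpow_pos_of_pos hD0 _
  have hu1000 : 1000 ≤ u := by
    rw [← hu12] at hD2
    exact (pow_le_pow_iff_left₀ (by norm_num) hu0.le (by norm_num)).1 hD2
  have huz0 : (z0 : ℝ) ≤ u := by
    rw [← hu12] at hD1
    exact (pow_le_pow_iff_left₀ (Nat.cast_nonneg _) hu0.le (by norm_num)).1 hD1
  have hlogu : Real.log D = 12 * Real.log u := by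
    rw [← hu12, Real.log_pow]
    norm_num
  have huD : u ≤ D := by
    rw [← hu12]
    exact le_self_pow₀ (by linarith) (by norm_num)
  set z : ℕ := ⌈u⌉₊ with hz
  have hzz0 : z0 ≤ z := by
    have : (z0 : ℝ) ≤ z := huz0.trans (Nat.le_ceil u)
    exact_mod_cast this
  have hzu : (z : ℝ) ≤ u + 1 := (Nat.ceil_lt_add_one hu0.le).le
  have hz1 : (1000 : ℝ) ≤ z := hu1000.trans (Nat.le_ceil u)
  have hlogz : Real.log z ≤ Real.log u + 1 / 1000 := by
    have h1 : Real.log z ≤ Real.log (u * (1 + 1 / u)) := by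
      apply Real.log_le_log (by linarith)
      have : u * (1 + 1 / u) = u + 1 := by field_simp
      rw [this]
      exact hzu
    rw [Real.log_mul hu0.ne' (by positivity)] at h1
    have h2 : Real.log (1 + 1 / u) ≤ 1 / u := by
      have := Real.log_le_sub_one_of_pos (x := 1 + 1 / u) (by positivity)
      linarith
    have h3 : 1 / u ≤ 1 / 1000 := one_div_le_one_div_of_le (by norm_num) hu1000
    linarith
  have hpu : ∀ p ∈ PP z, (p : ℝ) < u := by
    intro p hp
    rw [mem_PP] at hp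
    exact Nat.lt_ceil.1 hp.1
  have hξ : ∀ p ∈ PP z, 1 ≤ √(D / p) ∧ Real.log (√(D / p)) = (Real.log D - Real.log p) / 2 := by
    intro p hp
    have h1 := hpu p hp
    rw [mem_PP] at hp
    have hp0 : (0 : ℝ) < p := by exact_mod_cast hp.2.1.pos
    constructor
    · rw [Real.one_le_sqrt, one_le_div hp0]
      linarith
    · rw [Real.log_sqrt (by positivity), Real.log_div hD0.ne' hp0.ne']
  have hVz := VZ_pos z
  have han := hz0 z hzz0 (Real.log D) (by rw [hlogu]; linarith) (fun p => √(D / p)) hξ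
    (by rw [VZ_tele]; linarith)
  -- Selberg for each prime
  have hsel : ∑ p ∈ PP z, sift S v p p ≤ X * ∑ p ∈ PP z, 1 / (p : ℝ) * (1 / GZ (√(D / p)) p) +
      ∑ p ∈ PP z, ∑ l ∈ (PZ p).divisors.filter (fun l : ℕ => (l : ℝ) ≤ D / p),
      (l.divisors.card : ℝ) ^ 2 * |rem S v X (p * l)| := by
    rw [mul_sum, ← sum_add_distrib]
    apply sum_le_sum
    intro p hp
    have h1 := hξ p hp
    rw [mem_PP] at hp
    have h2 := hS S v X hX p p (coprime_PZ hp.2.1) hp.2.1.pos (√(D / p)) h1.1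
    rw [Real.sq_sqrt (by positivity)] at h2
    have h3 : X / p / GZ (√(D / p)) p = X * (1 / (p : ℝ) * (1 / GZ (√(D / p)) p)) := by
      ring
    rw [h3] at h2
    exact h2
  have hrem := rem_total S v X D hD3 z
  have hmain : 99 / 100 * VZ z ≤ 1 - ∑ p ∈ PP z, 1 / (p : ℝ) * (1 / GZ (√(D / p)) p) := by
    have h1 : ∑ p ∈ PP z, 1 / (p : ℝ) * (1 / GZ (√(D / p)) p - VZ p) =
        ∑ p ∈ PP z, 1 / (p : ℝ) * (1 / GZ (√(D / p)) p) - ∑ p ∈ PP z, VZ p / p := by
      rw [← sum_sub_distrib]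
      apply sum_congr rfl
      intro p _
      ring
    rw [h1, VZ_tele] at han
    linarith
  have hb := buchstab S v z
  have hcard := rem_one S v X
  have habs := neg_abs_le (rem S v X 1)
  have hX2 : 99 / 100 * X * VZ z ≤
      X - X * ∑ p ∈ PP z, 1 / (p : ℝ) * (1 / GZ (√(D / p)) p) := by
    have := mul_le_mul_of_nonneg_left hmain hX
    linarith
  linarith

/-- the lower bound sieve, given the limit of `VZ z log z` (task S4) -/
theorem lower_of_lim (hV : Tendsto (fun z : ℕ => VZ z * Real.log z) atTop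
    (𝓝 (5 / 2 * Real.exp (-Real.eulerMascheroniConstant)))) :
    ∃ D₀ : ℝ, ∀ D : ℝ, D₀ ≤ D → ∀ (ι : Type) (S : Finset ι) (v : ι → ℕ) (X : ℝ), 0 ≤ X →
    99 / 100 * X * VZ ⌈D ^ (1 / 12 : ℝ)⌉₊ - Rem S v X D ≤ sift S v 1 ⌈D ^ (1 / 12 : ℝ)⌉₊ :=
  lower_of (fun S v X hX z d hd hd0 ξ hξ => Pool.Agent.H605R2.PalS1.selberg S v X hX z d hd hd0 ξ hξ)
    Pool.Agent.H187R2.PalS2.rankin hV

end Pool.Agent.H483R2.PalS5
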